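import Mathlib
import Pool.Agent.Y642.RN.A
import Pool.Agent.Q116.FF.Bw
import Pool.Agent.Q163.FL.Dq

/-!
# Tutte's tangential 2-block conjecture for the graphs with domination number at most three

Every bridgeless multigraph with domination number at most three has a nowhere-zero 4-flow or a
component which can be contracted to the Petersen graph; more generally this holds if there is a set
of at most three vertices to which each vertex is joined by a walk all of whose edges, except
possibly the first one, lie in circuits of length at most four.  So Tutte's conjecture holds for the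
cographic matroids of these multigraphs.  The number three cannot be replaced by five.

Proof.  Circuits of length at most four and edges at vertices of degree two can be contracted
without losing the nonexistence of a nowhere-zero 4-flow (files `Q116/FF/Lift`, `Red`,
`Q163/FL/Dom4`).  The quotient `H` has girth at least five, minimum degree at least three (apart
from isolated vertices) and is dominated by a set `D` of at most three vertices.  It follows that
`D` has three vertices and is independent, that each other vertex has degree three, and that the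
graph outside of `D` consists of circuits whose vertices are dominated by the three vertices of `D`
in cyclic order, with at most one further vertex which is adjacent to all of `D`.  If each vertex of
`D` has at most four private neighbours then `H` has at most sixteen vertices of odd degree and the
theorem of the starting files (`TH362.TF.main16`) applies; otherwise the circuits can be coloured so
that `H` has a nowhere-zero 4-flow (`Q163/FL/Comb`, `Dom2`, `Dom3`).  The example with five vertices
is a Blanusa snark.
-/

set_option autoImplicit false

namespace Pool.Agent.Results.MP_aa6b05_co.DominatedByThree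

/-- The edge `e` joins `x` and `y`. -/
def Joins {V E : Type} (src dst : E → V) (x y : V) (e : E) : Prop :=
  (src e = x ∧ dst e = y) ∨ (src e = y ∧ dst e = x)

/-- `x` and `y` are different and joined by an edge which lies in a circuit of length two, three or
four. -/
def Short {V E : Type} (src dst : E → V) (x y : V) : Prop :=
  x ≠ y ∧ ∃ e, Joins src dst x y e ∧
    ((∃ e', e' ≠ e ∧ Joins src dst x y e') ∨
      (∃ z, z ≠ x ∧ z ≠ y ∧ (∃ e', Joins src dst y z e') ∧ ∃ e', Joins src dst z x e') ∨
      ∃ z w, z ≠ x ∧ z ≠ y ∧ w ≠ x ∧ w ≠ y ∧ z ≠ w ∧ (∃ e', Joins src dst y z e') ∧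
        (∃ e', Joins src dst z w e') ∧ ∃ e', Joins src dst w x e')

/-- There is a walk from `x` to `y` all of whose edges lie in circuits of length two, three or four
(no edge is needed if `x = y`). -/
def ShortLinked {V E : Type} (src dst : E → V) : V → V → Prop :=
  Relation.ReflTransGen (Short src dst)

/-- There is a set `R` of at most `k` vertices such that each vertex `v` which is an end of an edge
other than a loop is joined to a vertex of `R` by a walk all of whose edges, except possibly the
edge at `v`, lie in circuits of length two, three or four. (If each vertex outside of `R` has a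
neighbour in `R`, no walk with more than one edge is needed.) -/
def Dominated {V E : Type} (src dst : E → V) (k : ℕ) : Prop :=
  ∃ R : Finset V, R.card ≤ k ∧ ∀ v, (∃ e, src e ≠ dst e ∧ (src e = v ∨ dst e = v)) →
    ∃ r ∈ R, ∃ d, ShortLinked src dst r d ∧ (v = d ∨ ∃ e, Joins src dst v d e)

/-- There is a nowhere-zero flow with values in the group of order four and exponent two. -/
def HasFourFlow {V E : Type} [DecidableEq V] [Fintype E] (src dst : E → V) : Prop :=
  ∃ φ : E → ZMod 2 × ZMod 2, (∀ e, φ e ≠ 0) ∧
    ∀ v, ∑ e, ((if src e = v then φ e else 0) + (if dst e = v then φ e else 0)) = 0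

/-- The incidence vector of the vertex `v` over GF(2): the coordinate of an edge is the number of
its ends which are `v`, modulo 2 (so loops give 0). -/
def star {V E : Type} [DecidableEq V] (src dst : E → V) (v : V) : E → ZMod 2 :=
  fun e => (if src e = v then 1 else 0) + (if dst e = v then 1 else 0)

/-- The vectors `vec e` represent the cographic matroid of the graph: the linear relations between
them are exactly the elements of the cut space, which is spanned by the incidence vectors. -/
def RepresentsCographic {V E : Type} [DecidableEq V] [Fintype E] (src dst : E → V) {n : ℕ}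
    (vec : E → Fin n → ZMod 2) : Prop :=
  ∀ x : E → ZMod 2, ∑ e, x e • vec e = 0 ↔
    x ∈ Submodule.span (ZMod 2) (Set.range (star src dst))

/-- The simple matroid represented by the set `S` of vectors over GF(2) is a 2-block: `S` has no
zero vector and no linear map to the plane over GF(2) is nonzero on all of `S`. -/
def IsTwoBlock {n : ℕ} (S : Set (Fin n → ZMod 2)) : Prop :=
  (0 : Fin n → ZMod 2) ∉ S ∧
    ¬ ∃ L : (Fin n → ZMod 2) →ₗ[ZMod 2] (Fin 2 → ZMod 2), ∀ s ∈ S, L s ≠ 0

/-- `S` represents a tangential 2-block: it is a 2-block, and no proper minor without loops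
(contract `C`, keep `T`) is a 2-block. This is the hypothesis of the frozen statement S10691. -/
def IsTangential {n : ℕ} (S : Set (Fin n → ZMod 2)) : Prop :=
  IsTwoBlock S ∧
    ∀ C T : Set (Fin n → ZMod 2), C ⊆ S → T ⊆ S → T ≠ S →
      (∀ t ∈ T, t ∉ Submodule.span (ZMod 2) C) →
      ∃ L : (Fin n → ZMod 2) →ₗ[ZMod 2] (Fin 2 → ZMod 2),
        (∀ c ∈ C, L c = 0) ∧ ∀ t ∈ T, L t ≠ 0

/-- The cut space of the Petersen graph: vertices `0, ..., 9`, edges `0, ..., 14`. -/
def petersenCuts : Submodule (ZMod 2) (Fin 15 → ZMod 2) :=
  Submodule.span (ZMod 2) (Set.range (fun v : Fin 10 => fun k : Fin 15 =>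
    if (![0,1,2,3,4,5,6,7,8,9,0,1,2,3,4] : Fin 15 → Fin 10) k = v ∨
       (![1,2,3,4,0,7,8,9,5,6,5,6,7,8,9] : Fin 15 → Fin 10) k = v
    then (1 : ZMod 2) else 0))

theorem flow {V E : Type} [Fintype V] [DecidableEq V] [Fintype E] [DecidableEq E]
    {src dst : E → V} (h : TH362.TF.NZ src dst Finset.univ) : HasFourFlow src dst := by
  obtain ⟨φ, h1, h2⟩ := h
  exact ⟨φ, fun e => h1 e (Finset.mem_univ e), h2⟩

theorem unflow {V E : Type} [Fintype V] [DecidableEq V] [Fintype E] [DecidableEq E]
    {src dst : E → V} (h : HasFourFlow src dst) : TH362.TF.NZ src dst Finset.univ := by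
  obtain ⟨φ, h1, h2⟩ := h
  exact ⟨φ, fun e _ => h1 e, h2⟩

theorem domT {V E : Type} [Fintype V] [DecidableEq V] [Fintype E] [DecidableEq E]
    {src dst : E → V} (h : Dominated src dst 3) : Q163.FL.DomT src dst := h

theorem snark_dom : ∀ v : Fin 18, ∃ r ∈ ({0, 6, 10, 12, 13} : Finset (Fin 18)),
    v = r ∨ ∃ e : Fin 27, (Q116.FF.es e = v ∧ Q116.FF.et e = r) ∨
      (Q116.FF.es e = r ∧ Q116.FF.et e = v) := by decide

/-- (1) Let `G` be a finite multigraph without isthmuses which has a set of at most three vertices
to which each vertex that is not isolated is joined by a walk all of whose edges, except possibly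
the one at this vertex, lie in circuits of length at most four.  Then `G` has a nowhere-zero 4-flow,
or a component of `G` can be contracted to the Petersen graph.
(2) Let `S` be a set of vectors over GF(2) which represents the cographic matroid of such a graph,
isthmuses allowed (parallel elements are represented by the same vector).  If `S` is a 2-block then
`S` contains 15 different vectors which represent the cographic matroid of the Petersen graph; if
`S` is a tangential 2-block then `S` is the cographic matroid of the Petersen graph, in the form of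
the frozen statement S10691.
(3) There is a graph with 18 vertices and 27 edges without isthmuses which is dominated by five
vertices, which has no nowhere-zero 4-flow and cannot be contracted to the Petersen graph. -/
theorem result :
    (∀ (V E : Type) [Fintype V] [DecidableEq V] [Fintype E] [DecidableEq E] (src dst : E → V),
      (∀ e, ¬ TH362.Multi.Isthmus src dst e) → Dominated src dst 3 →
      HasFourFlow src dst ∨ TH362.Multi.ContractsToPetersen src dst) ∧
    (∀ (n : ℕ) (S : Set (Fin n → ZMod 2)) (V E : Type) [Fintype V] [DecidableEq V] [Fintype E]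
      [DecidableEq E] (src dst : E → V) (vec : E → Fin n → ZMod 2),
      RepresentsCographic src dst vec → Set.range vec = S → Dominated src dst 3 →
      (IsTwoBlock S → ∃ t : Fin 15 → Fin n → ZMod 2,
        Set.range t ⊆ S ∧ Function.Injective t ∧
        ∀ x : Fin 15 → ZMod 2, ∑ k, x k • t k = 0 ↔ x ∈ petersenCuts) ∧
      (IsTangential S → ∃ ψ : (Fin 15 → ZMod 2) →ₗ[ZMod 2] (Fin n → ZMod 2),
        LinearMap.ker ψ = petersenCuts ∧
        ⇑ψ '' Set.range (fun k : Fin 15 => (Pi.single k (1 : ZMod 2) : Fin 15 → ZMod 2)) = S)) ∧
    ∃ src dst : Fin 27 → Fin 18, (∀ e, src e ≠ dst e) ∧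
      (∀ e, ¬ TH362.Multi.Isthmus src dst e) ∧ Dominated src dst 5 ∧
      ¬ HasFourFlow src dst ∧ ¬ TH362.Multi.ContractsToPetersen src dst := by
  classical
  refine ⟨?_, ?_, ?_⟩
  · intro V E _ _ _ _ src dst hb hi
    have h1 := TH362.TF.n1_of src dst hb
    rcases (Q163.FL.dq_of_domT h1 (domT hi)).or with h | h
    · exact Or.inl (flow h)
    · exact Or.inr (TH362.TF.contracts src dst h1 h)
  · intro n S V E _ _ _ _ src dst vec hv hr hi
    have hv' : TH676.Blk.RepCo src dst vec := hv
    have hPC : TH676.Blk.PC = petersenCuts := rfl
    have main : IsTwoBlock S → ∃ t : Fin 15 → Fin n → ZMod 2,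
          Set.range t ⊆ S ∧ Function.Injective t ∧
          ∀ x : Fin 15 → ZMod 2, ∑ k, x k • t k = 0 ↔ x ∈ TH676.Blk.PC := by
      rintro ⟨hz, hL⟩
      have h0 : ∀ e, vec e ≠ 0 := by
        intro e he
        apply hz
        rw [← hr, ← he]
        exact ⟨e, rfl⟩
      have hbr := hv'.br h0
      have hN1 := Y642.RN.n1_of hbr
      have hnz : ¬ TH499.TF.NZ src dst := by
        intro h
        obtain ⟨L, hL'⟩ := hv'.map h
        apply hL
        refine ⟨L, fun s hs => ?_⟩
        rw [← hr] at hs
        obtain ⟨e, rfl⟩ := hs
        exact hL' e
      have hPM : TH362.Multi.ContractsToPetersen src dst := by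
        rcases (Q163.FL.dq_of_domT hN1 (domT hi)).or with h | h
        · exact absurd (Y642.RN.nz_of h) hnz
        · exact TH362.TF.contracts src dst hN1 h
      obtain ⟨ed, hx⟩ := Y642.RN.restr hv' hPM
      refine ⟨fun k => vec (ed k), ?_, ?_, hx⟩
      · rintro _ ⟨k, rfl⟩
        rw [← hr]
        exact ⟨ed k, rfl⟩
      · intro k l hkl
        by_contra hne
        apply TH676.Blk.pair_not_mem k l hne
        rw [← hx]
        simp only [Pi.add_apply, add_smul]
        rw [Finset.sum_add_distrib]
        simp only [Pi.single_apply, ite_smul, one_smul, zero_smul, Finset.sum_ite_eq',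
          Finset.mem_univ, if_true]
        have h3 : vec (ed k) = vec (ed l) := hkl
        rw [h3]
        funext i
        exact CharTwo.add_self_eq_zero _
    refine ⟨main, ?_⟩
    rintro ⟨h2, htan⟩
    obtain ⟨t, ht, hinj, hx⟩ := main h2
    have hsum1 : ∀ k, ∑ m, (Pi.single k 1 : Fin 15 → ZMod 2) m • t m = t k := by
      intro k
      simp only [Pi.single_apply, ite_smul, one_smul, zero_smul, Finset.sum_ite_eq',
        Finset.mem_univ, if_true]
    have hsp : ∀ k, t k ∉ Submodule.span (ZMod 2) (∅ : Set (Fin n → ZMod 2)) := by
      intro k hk
      rw [Submodule.span_empty, Submodule.mem_bot] at hk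
      apply TH676.Blk.single_not_mem k
      rw [← hx, hsum1]
      exact hk
    have hTS : Set.range t = S := by
      by_contra hne
      obtain ⟨L, _, hL2⟩ := htan ∅ (Set.range t) (Set.empty_subset _) ht hne (by
        rintro _ ⟨k, rfl⟩
        exact hsp k)
      obtain ⟨k, hk⟩ := TH676.Blk.pet_flow (fun k => ((L (t k)) 0, (L (t k)) 1)) (by
        intro x hxP
        have h4 : L (∑ k, x k • t k) = 0 := by
          rw [(hx x).mpr hxP, map_zero]
        rw [map_sum] at h4
        simp only [map_smul] at h4
        have h5 := congrFun h4 0
        have h6 := congrFun h4 1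
        rw [Finset.sum_apply] at h5 h6
        refine Prod.ext ?_ ?_
        · rw [Prod.fst_sum]
          exact h5
        · rw [Prod.snd_sum]
          exact h6)
      apply hL2 (t k) ⟨k, rfl⟩
      funext i
      fin_cases i
      · exact congrArg Prod.fst hk
      · exact congrArg Prod.snd hk
    refine ⟨Fintype.linearCombination (ZMod 2) t, ?_, ?_⟩
    · ext x
      rw [LinearMap.mem_ker, Fintype.linearCombination_apply, ← hPC, ← hx]
    · ext s
      rw [← hTS]
      constructor
      · rintro ⟨_, ⟨k, rfl⟩, rfl⟩
        refine ⟨k, ?_⟩
        rw [Fintype.linearCombination_apply]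
        exact (hsum1 k).symm
      · rintro ⟨k, rfl⟩
        refine ⟨_, ⟨k, rfl⟩, ?_⟩
        rw [Fintype.linearCombination_apply]
        exact hsum1 k
  · refine ⟨Q116.FF.es, Q116.FF.et, fun e h => ?_, Q116.FF.not_isthmus Q116.FF.snark_n1, ?_,
      fun h => Q116.FF.snark_nz (unflow h), Q116.FF.snark_ncp⟩
    · exact (Q116.FF.inc_facts _ e).1 ⟨rfl, h.symm⟩
    · refine ⟨{0, 6, 10, 12, 13}, by decide, fun v _ => ?_⟩
      obtain ⟨r, hr, h⟩ := snark_dom v
      exact ⟨r, hr, r, Relation.ReflTransGen.refl, h⟩

end Pool.Agent.Results.MP_aa6b05_co.DominatedByThree
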