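import Mathlib
import Pool.Agent.Y642.RN.A
import Pool.Agent.Q116.FF.Bw

/-!
# Tutte's tangential 2-block conjecture for the graphs with independence number at most six

Every bridgeless multigraph in which any seven vertices contain two adjacent ones has a nowhere-zero
4-flow or a component which can be contracted to the Petersen graph; so Tutte's conjecture holds for
the cographic matroids of the multigraphs with independence number at most six.  Six is the largest
possible number: it cannot be replaced by seven.

Proof.  Circuits of length at most four can be contracted without losing the nonexistence of a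
nowhere-zero 4-flow (for any degrees; a Kempe change is needed for length four), and a quotient has
no larger independence number.  A graph of girth at least five with independence number at most
1, 2, 3, 4, 5 has at most 2, 5, 7, 10, 14 vertices, and with independence number at most six it has
at most sixteen vertices of odd degree.  Now the theorem of the starting files for graphs with at
most sixteen vertices of odd degree (`TH362.TF.main16`) applies.  The example with independence
number seven is a Blanusa snark; its cuts, colourings and independent sets are searched by the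
kernel.
-/

set_option autoImplicit false

namespace Pool.Agent.Results.MP_aa6b05_co.IndependenceNumberSix

/-- Any set of more than `k` vertices contains two different adjacent vertices. -/
def IndependenceAtMost {V E : Type} (src dst : E → V) (k : ℕ) : Prop :=
  ∀ I : Finset V, k < I.card →
    ∃ e, src e ∈ I ∧ dst e ∈ I ∧ src e ≠ dst e

/-- There is a nowhere-zero flow with values in the group of order four and exponent two. -/
def HasFourFlow {V E : Type} [DecidableEq V] [Fintype E] (src dst : E → V) : Prop :=
  ∃ φ : E → ZMod 2 × ZMod 2, (∀ e, φ e ≠ 0) ∧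
    ∀ v, ∑ e, ((if src e = v then φ e else 0) + (if dst e = v then φ e else 0)) = 0

/-- The incidence vector of the vertex `v` over GF(2): the coordinate of an edge is the number of
its ends which are `v`, modulo 2 (so loops give 0). -/
def star {V E : Type} [DecidableEq V] (src dst : E → V) (v : V) : E → ZMod 2 :=
  fun e => (if src e = v then 1 else 0) + (if dst e = v then 1 else 0)

/-- The vectors `vec e` represent the cographic matroid of the graph: the linear relations between
them are exactly the elements of the cut space, which is spanned by the incidence vectors. -/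
def RepresentsCographic {V E : Type} [DecidableEq V] [Fintype E] (src dst : E → V) {n : ℕ}
    (vec : E → Fin n → ZMod 2) : Prop :=
  ∀ x : E → ZMod 2, ∑ e, x e • vec e = 0 ↔
    x ∈ Submodule.span (ZMod 2) (Set.range (star src dst))

/-- The simple matroid represented by the set `S` of vectors over GF(2) is a 2-block: `S` has no
zero vector and no linear map to the plane over GF(2) is nonzero on all of `S`. -/
def IsTwoBlock {n : ℕ} (S : Set (Fin n → ZMod 2)) : Prop :=
  (0 : Fin n → ZMod 2) ∉ S ∧
    ¬ ∃ L : (Fin n → ZMod 2) →ₗ[ZMod 2] (Fin 2 → ZMod 2), ∀ s ∈ S, L s ≠ 0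

/-- `S` represents a tangential 2-block: it is a 2-block, and no proper minor without loops
(contract `C`, keep `T`) is a 2-block. This is the hypothesis of the frozen statement S10691. -/
def IsTangential {n : ℕ} (S : Set (Fin n → ZMod 2)) : Prop :=
  IsTwoBlock S ∧
    ∀ C T : Set (Fin n → ZMod 2), C ⊆ S → T ⊆ S → T ≠ S →
      (∀ t ∈ T, t ∉ Submodule.span (ZMod 2) C) →
      ∃ L : (Fin n → ZMod 2) →ₗ[ZMod 2] (Fin 2 → ZMod 2),
        (∀ c ∈ C, L c = 0) ∧ ∀ t ∈ T, L t ≠ 0

/-- The cut space of the Petersen graph: vertices `0, ..., 9`, edges `0, ..., 14`. -/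
def petersenCuts : Submodule (ZMod 2) (Fin 15 → ZMod 2) :=
  Submodule.span (ZMod 2) (Set.range (fun v : Fin 10 => fun k : Fin 15 =>
    if (![0,1,2,3,4,5,6,7,8,9,0,1,2,3,4] : Fin 15 → Fin 10) k = v ∨
       (![1,2,3,4,0,7,8,9,5,6,5,6,7,8,9] : Fin 15 → Fin 10) k = v
    then (1 : ZMod 2) else 0))

theorem indLe {V E : Type} [Fintype V] [DecidableEq V] [Fintype E] [DecidableEq E]
    {src dst : E → V} {k : ℕ} (h : IndependenceAtMost src dst k) :
    Q116.FF.IndLe src dst Finset.univ k := by
  intro I hI
  by_contra hc
  obtain ⟨e, h1, h2, h3⟩ := h I (by omega)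
  exact hI _ h1 _ h2 h3 ⟨e, Finset.mem_univ _, Or.inl ⟨rfl, rfl⟩⟩

theorem flow {V E : Type} [Fintype V] [DecidableEq V] [Fintype E] [DecidableEq E]
    {src dst : E → V} (h : TH362.TF.NZ src dst Finset.univ) : HasFourFlow src dst := by
  obtain ⟨φ, h1, h2⟩ := h
  exact ⟨φ, fun e => h1 e (Finset.mem_univ e), h2⟩

theorem unflow {V E : Type} [Fintype V] [DecidableEq V] [Fintype E] [DecidableEq E]
    {src dst : E → V} (h : HasFourFlow src dst) : TH362.TF.NZ src dst Finset.univ := by
  obtain ⟨φ, h1, h2⟩ := h
  exact ⟨φ, fun e _ => h1 e, h2⟩

/-- (1) Let `G` be a finite multigraph without isthmuses in which any seven vertices contain two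
different adjacent vertices.  Then `G` has a nowhere-zero 4-flow, or a component of `G` can be
contracted to the Petersen graph.
(2) Let `S` be a set of vectors over GF(2) which represents the cographic matroid of a graph in
which any seven vertices contain two adjacent ones (parallel elements are represented by the same
vector).  If `S` is a 2-block then `S` contains 15 different vectors which represent the cographic
matroid of the Petersen graph; if `S` is a tangential 2-block then `S` is the cographic matroid of
the Petersen graph, in the form of the frozen statement S10691.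
(3) There is a graph with 18 vertices and 27 edges without isthmuses in which any eight vertices
contain two adjacent ones, which has no nowhere-zero 4-flow and cannot be contracted to the
Petersen graph. -/
theorem result :
    (∀ (V E : Type) [Fintype V] [DecidableEq V] [Fintype E] [DecidableEq E] (src dst : E → V),
      (∀ e, ¬ TH362.Multi.Isthmus src dst e) → IndependenceAtMost src dst 6 →
      HasFourFlow src dst ∨ TH362.Multi.ContractsToPetersen src dst) ∧
    (∀ (n : ℕ) (S : Set (Fin n → ZMod 2)) (V E : Type) [Fintype V] [DecidableEq V] [Fintype E]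
      [DecidableEq E] (src dst : E → V) (vec : E → Fin n → ZMod 2),
      RepresentsCographic src dst vec → Set.range vec = S → IndependenceAtMost src dst 6 →
      (IsTwoBlock S → ∃ t : Fin 15 → Fin n → ZMod 2,
        Set.range t ⊆ S ∧ Function.Injective t ∧
        ∀ x : Fin 15 → ZMod 2, ∑ k, x k • t k = 0 ↔ x ∈ petersenCuts) ∧
      (IsTangential S → ∃ ψ : (Fin 15 → ZMod 2) →ₗ[ZMod 2] (Fin n → ZMod 2),
        LinearMap.ker ψ = petersenCuts ∧
        ⇑ψ '' Set.range (fun k : Fin 15 => (Pi.single k (1 : ZMod 2) : Fin 15 → ZMod 2)) = S)) ∧
    ∃ src dst : Fin 27 → Fin 18, (∀ e, src e ≠ dst e) ∧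
      (∀ e, ¬ TH362.Multi.Isthmus src dst e) ∧ IndependenceAtMost src dst 7 ∧
      ¬ HasFourFlow src dst ∧ ¬ TH362.Multi.ContractsToPetersen src dst := by
  classical
  refine ⟨?_, ?_, ?_⟩
  · intro V E _ _ _ _ src dst hb hi
    have h1 := TH362.TF.n1_of src dst hb
    rcases Q116.FF.of_indep h1 (indLe hi) with h | h
    · exact Or.inl (flow h)
    · exact Or.inr (TH362.TF.contracts src dst h1 h)
  · intro n S V E _ _ _ _ src dst vec hv hr hi
    have hv' : TH676.Blk.RepCo src dst vec := hv
    have hPC : TH676.Blk.PC = petersenCuts := rfl
    have main : IsTwoBlock S → ∃ t : Fin 15 → Fin n → ZMod 2,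
          Set.range t ⊆ S ∧ Function.Injective t ∧
          ∀ x : Fin 15 → ZMod 2, ∑ k, x k • t k = 0 ↔ x ∈ TH676.Blk.PC := by
      rintro ⟨hz, hL⟩
      have h0 : ∀ e, vec e ≠ 0 := by
        intro e he
        apply hz
        rw [← hr, ← he]
        exact ⟨e, rfl⟩
      have hbr := hv'.br h0
      have hN1 := Y642.RN.n1_of hbr
      have hnz : ¬ TH499.TF.NZ src dst := by
        intro h
        obtain ⟨L, hL'⟩ := hv'.map h
        apply hL
        refine ⟨L, fun s hs => ?_⟩
        rw [← hr] at hs
        obtain ⟨e, rfl⟩ := hs
        exact hL' e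
      have hPM : TH362.Multi.ContractsToPetersen src dst := by
        rcases Q116.FF.of_indep hN1 (indLe hi) with h | h
        · exact absurd (Y642.RN.nz_of h) hnz
        · exact TH362.TF.contracts src dst hN1 h
      obtain ⟨ed, hx⟩ := Y642.RN.restr hv' hPM
      refine ⟨fun k => vec (ed k), ?_, ?_, hx⟩
      · rintro _ ⟨k, rfl⟩
        rw [← hr]
        exact ⟨ed k, rfl⟩
      · intro k l hkl
        by_contra hne
        apply TH676.Blk.pair_not_mem k l hne
        rw [← hx]
        simp only [Pi.add_apply, add_smul]
        rw [Finset.sum_add_distrib]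
        simp only [Pi.single_apply, ite_smul, one_smul, zero_smul, Finset.sum_ite_eq',
          Finset.mem_univ, if_true]
        have h3 : vec (ed k) = vec (ed l) := hkl
        rw [h3]
        funext i
        exact CharTwo.add_self_eq_zero _
    refine ⟨main, ?_⟩
    rintro ⟨h2, htan⟩
    obtain ⟨t, ht, hinj, hx⟩ := main h2
    have hsum1 : ∀ k, ∑ m, (Pi.single k 1 : Fin 15 → ZMod 2) m • t m = t k := by
      intro k
      simp only [Pi.single_apply, ite_smul, one_smul, zero_smul, Finset.sum_ite_eq',
        Finset.mem_univ, if_true]
    have hsp : ∀ k, t k ∉ Submodule.span (ZMod 2) (∅ : Set (Fin n → ZMod 2)) := by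
      intro k hk
      rw [Submodule.span_empty, Submodule.mem_bot] at hk
      apply TH676.Blk.single_not_mem k
      rw [← hx, hsum1]
      exact hk
    have hTS : Set.range t = S := by
      by_contra hne
      obtain ⟨L, _, hL2⟩ := htan ∅ (Set.range t) (Set.empty_subset _) ht hne (by
        rintro _ ⟨k, rfl⟩
        exact hsp k)
      obtain ⟨k, hk⟩ := TH676.Blk.pet_flow (fun k => ((L (t k)) 0, (L (t k)) 1)) (by
        intro x hxP
        have h4 : L (∑ k, x k • t k) = 0 := by
          rw [(hx x).mpr hxP, map_zero]
        rw [map_sum] at h4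
        simp only [map_smul] at h4
        have h5 := congrFun h4 0
        have h6 := congrFun h4 1
        rw [Finset.sum_apply] at h5 h6
        refine Prod.ext ?_ ?_
        · rw [Prod.fst_sum]
          exact h5
        · rw [Prod.snd_sum]
          exact h6)
      apply hL2 (t k) ⟨k, rfl⟩
      funext i
      fin_cases i
      · exact congrArg Prod.fst hk
      · exact congrArg Prod.snd hk
    refine ⟨Fintype.linearCombination (ZMod 2) t, ?_, ?_⟩
    · ext x
      rw [LinearMap.mem_ker, Fintype.linearCombination_apply, ← hPC, ← hx]
    · ext s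
      rw [← hTS]
      constructor
      · rintro ⟨_, ⟨k, rfl⟩, rfl⟩
        refine ⟨k, ?_⟩
        rw [Fintype.linearCombination_apply]
        exact (hsum1 k).symm
      · rintro ⟨k, rfl⟩
        refine ⟨_, ⟨k, rfl⟩, ?_⟩
        rw [Fintype.linearCombination_apply]
        exact hsum1 k
  · refine ⟨Q116.FF.es, Q116.FF.et, fun e h => ?_, Q116.FF.not_isthmus Q116.FF.snark_n1, ?_,
      fun h => Q116.FF.snark_nz (unflow h), Q116.FF.snark_ncp⟩
    · exact (Q116.FF.inc_facts _ e).1 ⟨rfl, h.symm⟩
    · intro I hI
      by_contra hc
      push Not at hc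
      have h1 := Q116.FF.snark_al I (by
        rintro u hu v hv huv ⟨e, _, he⟩
        rcases he with ⟨h1, h2⟩ | ⟨h1, h2⟩
        · exact huv (by rw [← h1, ← h2]; exact hc e (h1 ▸ hu) (h2 ▸ hv))
        · exact huv (by rw [← h1, ← h2]; exact (hc e (h1 ▸ hv) (h2 ▸ hu)).symm))
      omega

end Pool.Agent.Results.MP_aa6b05_co.IndependenceNumberSix
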