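import Mathlib
import Pool.Agent.Y642.RN.A
import Pool.Agent.Q163.FL.P9x

/-!
# Tutte's tangential 2-block conjecture for the graphs without induced paths on nine vertices

Every bridgeless multigraph without an induced path on nine vertices has a nowhere-zero 4-flow or a
component which can be contracted to the Petersen graph.  So Tutte's conjecture holds for the
cographic matroids of the multigraphs without induced paths on nine vertices.  Nine cannot be
replaced by thirteen.

Proof.  Contracting an edge of a graph does not create longer induced paths (files `Q163/FL/P6`,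
`P6c`), and circuits of length at most four and edges at vertices of degree two can be contracted
without losing the nonexistence of a nowhere-zero 4-flow (files `Q116/FF/Lift`, `Red`,
`Q163/FL/Dom4`).  So it is enough to consider simple connected graphs of girth at least five and
minimum degree at least three without an induced path on nine vertices.  An exhaustive search, which
starts with a longest induced path and each time adds all neighbours of a vertex of it, shows that
such a graph has at most fourteen vertices or satisfies the conclusion.  The search is carried out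
by functions written for the kernel, which check certificates (`Q163/FL/Sr`, `Sr2`, `Sr3`, `Sr4`,
`Sd8`, `Sd9a`-`Sd9d`, `P9`).  Finally the theorem of the starting files for multigraphs with at most
sixteen vertices of odd degree (`TH362.TF.main16`) applies.  The example without induced paths on
thirteen vertices is a Blanusa snark.
-/

set_option autoImplicit false

namespace Pool.Agent.Results.MP_aa6b05_co.NoInducedPathNine

/-- The edge `e` joins `x` and `y`. -/
def Joins {V E : Type} (src dst : E → V) (x y : V) (e : E) : Prop :=
  (src e = x ∧ dst e = y) ∨ (src e = y ∧ dst e = x)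

/-- There is an induced path with `k` vertices: the vertices `p 0, ..., p (k - 1)` are different,
and two of them are joined by an edge exactly if they are consecutive. Loops and multiple edges are
allowed at these vertices. -/
def HasInducedPath {V E : Type} (src dst : E → V) (k : ℕ) : Prop :=
  ∃ p : ℕ → V, ∀ i j, i < j → j < k →
    p i ≠ p j ∧ ((∃ e, Joins src dst (p i) (p j) e) ↔ j = i + 1)

/-- There is a nowhere-zero flow with values in the group of order four and exponent two. -/
def HasFourFlow {V E : Type} [DecidableEq V] [Fintype E] (src dst : E → V) : Prop :=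
  ∃ φ : E → ZMod 2 × ZMod 2, (∀ e, φ e ≠ 0) ∧
    ∀ v, ∑ e, ((if src e = v then φ e else 0) + (if dst e = v then φ e else 0)) = 0

/-- The incidence vector of the vertex `v` over GF(2): the coordinate of an edge is the number of
its ends which are `v`, modulo 2 (so loops give 0). -/
def star {V E : Type} [DecidableEq V] (src dst : E → V) (v : V) : E → ZMod 2 :=
  fun e => (if src e = v then 1 else 0) + (if dst e = v then 1 else 0)

/-- The vectors `vec e` represent the cographic matroid of the graph: the linear relations between
them are exactly the elements of the cut space, which is spanned by the incidence vectors. -/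
def RepresentsCographic {V E : Type} [DecidableEq V] [Fintype E] (src dst : E → V) {n : ℕ}
    (vec : E → Fin n → ZMod 2) : Prop :=
  ∀ x : E → ZMod 2, ∑ e, x e • vec e = 0 ↔
    x ∈ Submodule.span (ZMod 2) (Set.range (star src dst))

/-- The simple matroid represented by the set `S` of vectors over GF(2) is a 2-block: `S` has no
zero vector and no linear map to the plane over GF(2) is nonzero on all of `S`. -/
def IsTwoBlock {n : ℕ} (S : Set (Fin n → ZMod 2)) : Prop :=
  (0 : Fin n → ZMod 2) ∉ S ∧
    ¬ ∃ L : (Fin n → ZMod 2) →ₗ[ZMod 2] (Fin 2 → ZMod 2), ∀ s ∈ S, L s ≠ 0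

/-- `S` represents a tangential 2-block: it is a 2-block, and no proper minor without loops
(contract `C`, keep `T`) is a 2-block. This is the hypothesis of the frozen statement S10691. -/
def IsTangential {n : ℕ} (S : Set (Fin n → ZMod 2)) : Prop :=
  IsTwoBlock S ∧
    ∀ C T : Set (Fin n → ZMod 2), C ⊆ S → T ⊆ S → T ≠ S →
      (∀ t ∈ T, t ∉ Submodule.span (ZMod 2) C) →
      ∃ L : (Fin n → ZMod 2) →ₗ[ZMod 2] (Fin 2 → ZMod 2),
        (∀ c ∈ C, L c = 0) ∧ ∀ t ∈ T, L t ≠ 0

/-- The cut space of the Petersen graph: vertices `0, ..., 9`, edges `0, ..., 14`. -/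
def petersenCuts : Submodule (ZMod 2) (Fin 15 → ZMod 2) :=
  Submodule.span (ZMod 2) (Set.range (fun v : Fin 10 => fun k : Fin 15 =>
    if (![0,1,2,3,4,5,6,7,8,9,0,1,2,3,4] : Fin 15 → Fin 10) k = v ∨
       (![1,2,3,4,0,7,8,9,5,6,5,6,7,8,9] : Fin 15 → Fin 10) k = v
    then (1 : ZMod 2) else 0))

theorem flow {V E : Type} [Fintype V] [DecidableEq V] [Fintype E] [DecidableEq E]
    {src dst : E → V} (h : TH362.TF.NZ src dst Finset.univ) : HasFourFlow src dst := by
  obtain ⟨φ, h1, h2⟩ := h
  exact ⟨φ, fun e => h1 e (Finset.mem_univ e), h2⟩

theorem unflow {V E : Type} [Fintype V] [DecidableEq V] [Fintype E] [DecidableEq E]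
    {src dst : E → V} (h : HasFourFlow src dst) : TH362.TF.NZ src dst Finset.univ := by
  obtain ⟨φ, h1, h2⟩ := h
  exact ⟨φ, fun e _ => h1 e, h2⟩

theorem noip {V E : Type} [Fintype V] [DecidableEq V] [Fintype E] [DecidableEq E]
    {src dst : E → V} {k : ℕ} (h : ¬ HasInducedPath src dst k) :
    ¬ Q163.FL.IP (Q163.FL.Ad src dst) k := by
  rintro ⟨p, hp⟩
  refine h ⟨p, fun i j hi hj => ?_⟩
  obtain ⟨h1, h2⟩ := hp i j hi hj
  refine ⟨h1, ?_⟩
  rw [← h2]
  constructor
  · rintro ⟨e, he⟩
    exact ⟨h1, e, Finset.mem_univ e, he⟩
  · rintro ⟨_, e, _, he⟩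
    exact ⟨e, he⟩

/-- (1) Let `G` be a finite multigraph without isthmuses and without an induced path on nine
vertices.  Then `G` has a nowhere-zero 4-flow, or a component of `G` can be contracted to the
Petersen graph.
(2) Let `S` be a set of vectors over GF(2) which represents the cographic matroid of a multigraph
without an induced path on nine vertices, isthmuses allowed (parallel elements are represented by
the same vector).  If `S` is a 2-block then `S` contains 15 different vectors which represent the
cographic matroid of the Petersen graph; if `S` is a tangential 2-block then `S` is the cographic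
matroid of the Petersen graph, in the form of the frozen statement S10691.
(3) There is a loopless graph with 18 vertices and 27 edges, without isthmuses and without an induced
path on thirteen vertices, which has no nowhere-zero 4-flow and cannot be contracted to the Petersen
graph. -/
theorem result :
    (∀ (V E : Type) [Fintype V] [DecidableEq V] [Fintype E] [DecidableEq E] (src dst : E → V),
      (∀ e, ¬ TH362.Multi.Isthmus src dst e) → ¬ HasInducedPath src dst 9 →
      HasFourFlow src dst ∨ TH362.Multi.ContractsToPetersen src dst) ∧
    (∀ (n : ℕ) (S : Set (Fin n → ZMod 2)) (V E : Type) [Fintype V] [DecidableEq V] [Fintype E]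
      [DecidableEq E] (src dst : E → V) (vec : E → Fin n → ZMod 2),
      RepresentsCographic src dst vec → Set.range vec = S → ¬ HasInducedPath src dst 9 →
      (IsTwoBlock S → ∃ t : Fin 15 → Fin n → ZMod 2,
        Set.range t ⊆ S ∧ Function.Injective t ∧
        ∀ x : Fin 15 → ZMod 2, ∑ k, x k • t k = 0 ↔ x ∈ petersenCuts) ∧
      (IsTangential S → ∃ ψ : (Fin 15 → ZMod 2) →ₗ[ZMod 2] (Fin n → ZMod 2),
        LinearMap.ker ψ = petersenCuts ∧
        ⇑ψ '' Set.range (fun k : Fin 15 => (Pi.single k (1 : ZMod 2) : Fin 15 → ZMod 2)) = S)) ∧
    ∃ src dst : Fin 27 → Fin 18, (∀ e, src e ≠ dst e) ∧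
      (∀ e, ¬ TH362.Multi.Isthmus src dst e) ∧ ¬ HasInducedPath src dst 13 ∧
      ¬ HasFourFlow src dst ∧ ¬ TH362.Multi.ContractsToPetersen src dst := by
  classical
  refine ⟨?_, ?_, ?_⟩
  · intro V E _ _ _ _ src dst hb hi
    have h1 := TH362.TF.n1_of src dst hb
    rcases Q163.FL.of_p9_all h1 (noip hi) with h | h
    · exact Or.inl (flow h)
    · exact Or.inr (TH362.TF.contracts src dst h1 h)
  · intro n S V E _ _ _ _ src dst vec hv hr hi
    have hv' : TH676.Blk.RepCo src dst vec := hv
    have hPC : TH676.Blk.PC = petersenCuts := rfl
    have main : IsTwoBlock S → ∃ t : Fin 15 → Fin n → ZMod 2,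
          Set.range t ⊆ S ∧ Function.Injective t ∧
          ∀ x : Fin 15 → ZMod 2, ∑ k, x k • t k = 0 ↔ x ∈ TH676.Blk.PC := by
      rintro ⟨hz, hL⟩
      have h0 : ∀ e, vec e ≠ 0 := by
        intro e he
        apply hz
        rw [← hr, ← he]
        exact ⟨e, rfl⟩
      have hbr := hv'.br h0
      have hN1 := Y642.RN.n1_of hbr
      have hnz : ¬ TH499.TF.NZ src dst := by
        intro h
        obtain ⟨L, hL'⟩ := hv'.map h
        apply hL
        refine ⟨L, fun s hs => ?_⟩
        rw [← hr] at hs
        obtain ⟨e, rfl⟩ := hs
        exact hL' e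
      have hPM : TH362.Multi.ContractsToPetersen src dst := by
        rcases Q163.FL.of_p9_all hN1 (noip hi) with h | h
        · exact absurd (Y642.RN.nz_of h) hnz
        · exact TH362.TF.contracts src dst hN1 h
      obtain ⟨ed, hx⟩ := Y642.RN.restr hv' hPM
      refine ⟨fun k => vec (ed k), ?_, ?_, hx⟩
      · rintro _ ⟨k, rfl⟩
        rw [← hr]
        exact ⟨ed k, rfl⟩
      · intro k l hkl
        by_contra hne
        apply TH676.Blk.pair_not_mem k l hne
        rw [← hx]
        simp only [Pi.add_apply, add_smul]
        rw [Finset.sum_add_distrib]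
        simp only [Pi.single_apply, ite_smul, one_smul, zero_smul, Finset.sum_ite_eq',
          Finset.mem_univ, if_true]
        have h3 : vec (ed k) = vec (ed l) := hkl
        rw [h3]
        funext i
        exact CharTwo.add_self_eq_zero _
    refine ⟨main, ?_⟩
    rintro ⟨h2, htan⟩
    obtain ⟨t, ht, hinj, hx⟩ := main h2
    have hsum1 : ∀ k, ∑ m, (Pi.single k 1 : Fin 15 → ZMod 2) m • t m = t k := by
      intro k
      simp only [Pi.single_apply, ite_smul, one_smul, zero_smul, Finset.sum_ite_eq',
        Finset.mem_univ, if_true]
    have hsp : ∀ k, t k ∉ Submodule.span (ZMod 2) (∅ : Set (Fin n → ZMod 2)) := by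
      intro k hk
      rw [Submodule.span_empty, Submodule.mem_bot] at hk
      apply TH676.Blk.single_not_mem k
      rw [← hx, hsum1]
      exact hk
    have hTS : Set.range t = S := by
      by_contra hne
      obtain ⟨L, _, hL2⟩ := htan ∅ (Set.range t) (Set.empty_subset _) ht hne (by
        rintro _ ⟨k, rfl⟩
        exact hsp k)
      obtain ⟨k, hk⟩ := TH676.Blk.pet_flow (fun k => ((L (t k)) 0, (L (t k)) 1)) (by
        intro x hxP
        have h4 : L (∑ k, x k • t k) = 0 := by
          rw [(hx x).mpr hxP, map_zero]
        rw [map_sum] at h4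
        simp only [map_smul] at h4
        have h5 := congrFun h4 0
        have h6 := congrFun h4 1
        rw [Finset.sum_apply] at h5 h6
        refine Prod.ext ?_ ?_
        · rw [Prod.fst_sum]
          exact h5
        · rw [Prod.snd_sum]
          exact h6)
      apply hL2 (t k) ⟨k, rfl⟩
      funext i
      fin_cases i
      · exact congrArg Prod.fst hk
      · exact congrArg Prod.snd hk
    refine ⟨Fintype.linearCombination (ZMod 2) t, ?_, ?_⟩
    · ext x
      rw [LinearMap.mem_ker, Fintype.linearCombination_apply, ← hPC, ← hx]
    · ext s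
      rw [← hTS]
      constructor
      · rintro ⟨_, ⟨k, rfl⟩, rfl⟩
        refine ⟨k, ?_⟩
        rw [Fintype.linearCombination_apply]
        exact (hsum1 k).symm
      · rintro ⟨k, rfl⟩
        refine ⟨_, ⟨k, rfl⟩, ?_⟩
        rw [Fintype.linearCombination_apply]
        exact hsum1 k
  · refine ⟨Q116.FF.es, Q116.FF.et, fun e h => ?_, Q116.FF.not_isthmus Q116.FF.snark_n1, ?_,
      fun h => Q116.FF.snark_nz (unflow h), Q116.FF.snark_ncp⟩
    · exact (Q116.FF.inc_facts _ e).1 ⟨rfl, h.symm⟩
    · exact Q163.FL.blanusa_ip (R := fun v w => ∃ e, Joins Q116.FF.es Q116.FF.et v w e)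
        fun v w _ => Iff.rfl

end Pool.Agent.Results.MP_aa6b05_co.NoInducedPathNine
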