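import Mathlib
import Pool.Agent.Q163.FL.Path
import Pool.Agent.TH676.Blk.Main

set_option autoImplicit false

/-!
# Tangential 2-blocks over GF(2) and tree decompositions into sets of small independence number

Tutte's tangential 2-block conjecture for the cographic matroids of the graphs with a tree
decomposition whose bags have independence number at most two or small clique covers, and of the
graphs with a similar path decomposition.  The bags may be arbitrarily large.

Proof.  In a quotient of the graph in which all circuits of length at most four have been contracted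
(this does not change the existence of a nowhere-zero 4-flow, helper116) a bag with independence
number two has at most five vertices, and a clique which does not have exactly two vertices becomes
one vertex.  So the quotient has treewidth at most four or pathwidth at most five; for these the
theorems of helper499 and helper395 apply.
-/

namespace Pool.Agent.Results.MP_aa6b05_co.TreeIndependenceTwo

open Finset

/-- The incidence vector of the vertex `v` over GF(2): the coordinate of an edge is the number of
its ends which are `v`, modulo 2 (so loops give 0). -/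
def star {V E : Type} [DecidableEq V] (src dst : E → V) (v : V) : E → ZMod 2 :=
  fun e => (if src e = v then 1 else 0) + (if dst e = v then 1 else 0)

/-- The vectors `vec e` represent the cographic matroid of the graph: the linear relations between
them are exactly the elements of the cut space, which is spanned by the incidence vectors. -/
def RepresentsCographic {V E : Type} [DecidableEq V] [Fintype E] (src dst : E → V) {n : ℕ}
    (vec : E → Fin n → ZMod 2) : Prop :=
  ∀ x : E → ZMod 2, ∑ e, x e • vec e = 0 ↔
    x ∈ Submodule.span (ZMod 2) (Set.range (star src dst))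

/-- The simple matroid represented by the set `S` of vectors over GF(2) is a 2-block: `S` has no
zero vector and no linear map to the plane over GF(2) is nonzero on all of `S`. -/
def IsTwoBlock {n : ℕ} (S : Set (Fin n → ZMod 2)) : Prop :=
  (0 : Fin n → ZMod 2) ∉ S ∧
    ¬ ∃ L : (Fin n → ZMod 2) →ₗ[ZMod 2] (Fin 2 → ZMod 2), ∀ s ∈ S, L s ≠ 0

/-- `S` represents a tangential 2-block: it is a 2-block, and no proper minor without loops
(contract `C`, keep `T`) is a 2-block. This is the hypothesis of the frozen statement S10691. -/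
def IsTangential {n : ℕ} (S : Set (Fin n → ZMod 2)) : Prop :=
  IsTwoBlock S ∧
    ∀ C T : Set (Fin n → ZMod 2), C ⊆ S → T ⊆ S → T ≠ S →
      (∀ t ∈ T, t ∉ Submodule.span (ZMod 2) C) →
      ∃ L : (Fin n → ZMod 2) →ₗ[ZMod 2] (Fin 2 → ZMod 2),
        (∀ c ∈ C, L c = 0) ∧ ∀ t ∈ T, L t ≠ 0

/-- The cut space of the Petersen graph: vertices `0, ..., 9`, edges `0, ..., 14`. -/
def petersenCuts : Submodule (ZMod 2) (Fin 15 → ZMod 2) :=
  Submodule.span (ZMod 2) (Set.range (fun v : Fin 10 => fun k : Fin 15 =>
    if (![0,1,2,3,4,5,6,7,8,9,0,1,2,3,4] : Fin 15 → Fin 10) k = v ∨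
       (![1,2,3,4,0,7,8,9,5,6,5,6,7,8,9] : Fin 15 → Fin 10) k = v
    then (1 : ZMod 2) else 0))

section

variable {V E : Type} (src dst : E → V)

/-- The different vertices `x` and `y` are joined by an edge. -/
def Adjacent (x y : V) : Prop :=
  x ≠ y ∧ ∃ e, (src e = x ∧ dst e = y) ∨ (src e = y ∧ dst e = x)

/-- The vertices in `K` are pairwise adjacent. -/
def Clique (K : Finset V) : Prop := ∀ x ∈ K, ∀ y ∈ K, x ≠ y → Adjacent src dst x y

/-- The independence number is at most two: among any three vertices in `X` two are adjacent. -/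
def IndependenceTwo (X : Finset V) : Prop :=
  ∀ x ∈ X, ∀ y ∈ X, ∀ z ∈ X, x ≠ y → y ≠ z → x ≠ z →
    Adjacent src dst x y ∨ Adjacent src dst y z ∨ Adjacent src dst x z

/-- Some `m` cliques cover `X`, and `m` plus the number of those cliques which have exactly two
vertices is at most `w`. -/
def CliqueCover (w : ℕ) (X : Finset V) : Prop :=
  ∃ (m : ℕ) (K : Fin m → Finset V), (∀ i, Clique src dst (K i)) ∧ (∀ x ∈ X, ∃ i, x ∈ K i) ∧
    m + (univ.filter (fun i => (K i).card = 2)).card ≤ w

/-- A tree decomposition of the graph, with bags `bag i` for the nodes `i` of the tree `T`. -/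
def IsTreeDecomposition {ι : Type} (T : SimpleGraph ι) (bag : ι → Finset V) : Prop :=
  T.IsTree ∧ (∀ v, ∃ i, v ∈ bag i) ∧ (∀ e, ∃ i, src e ∈ bag i ∧ dst e ∈ bag i) ∧
    ∀ (i j : ι) (p : T.Walk i j), p.IsPath → ∀ k ∈ p.support, ∀ v, v ∈ bag i → v ∈ bag j →
      v ∈ bag k

/-- Some tree decomposition has only bags which have independence number at most two or a clique
cover of weight at most five. -/
def TreeClass : Prop :=
  ∃ (ι : Type) (_ : Fintype ι) (T : SimpleGraph ι) (bag : ι → Finset V),
    IsTreeDecomposition src dst T bag ∧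
      ∀ i, IndependenceTwo src dst (bag i) ∨ CliqueCover src dst 5 (bag i)

/-- `X 0, X 1, ...` is a path decomposition: every edge has both ends in one of the sets, and every
vertex lies in an interval of the sets. -/
def IsPathDecomposition [DecidableEq V] (X : ℕ → Finset V) : Prop :=
  (∀ e, ∃ i, src e ∈ X i ∧ dst e ∈ X i) ∧ ∀ i j k, i ≤ j → j ≤ k → X i ∩ X k ⊆ X j

/-- Some path decomposition has only bags `X i` which have a clique cover of weight at most six or
become sets of independence number at most two when a clique is removed which does not have exactly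
two vertices. -/
def PathClass [DecidableEq V] : Prop :=
  ∃ X : ℕ → Finset V, IsPathDecomposition src dst X ∧
    ∀ i, CliqueCover src dst 6 (X i) ∨
      ∃ K : Finset V, Clique src dst K ∧ K.card ≠ 2 ∧ IndependenceTwo src dst (X i \ K)

end

theorem cov_of {V E : Type} [Fintype V] [DecidableEq V] [Fintype E] [DecidableEq E]
    {src dst : E → V} {w : ℕ} {X : Finset V} (h : CliqueCover src dst w X) :
    Q163.FL.Cov src dst w X := by
  obtain ⟨m, K, h1, h2, h3⟩ := h
  refine ⟨m, K, fun i x hx y hy hxy => ?_, h2, ?_⟩
  · obtain ⟨_, e, he⟩ := h1 i x hx y hy hxy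
    exact ⟨e, mem_univ _, he⟩
  · have h4 : ∑ i, (if (K i).card = 2 then 2 else 1) =
        ∑ i : Fin m, (1 + if (K i).card = 2 then 1 else 0) :=
      sum_congr rfl fun i _ => by split_ifs <;> rfl
    rw [h4, sum_add_distrib, sum_boole, sum_const, card_univ, Fintype.card_fin]
    simpa using h3

theorem ind_of {V E : Type} [Fintype V] [DecidableEq V] [Fintype E] [DecidableEq E]
    {src dst : E → V} {X : Finset V} (h : IndependenceTwo src dst X) :
    Q163.FL.Ind2 src dst X := by
  intro I hI hind
  by_contra hcon
  push Not at hcon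
  obtain ⟨a, ha, b, hb, c, hc, hab, hac, hbc⟩ := two_lt_card.1 hcon
  rcases h a (hI ha) b (hI hb) c (hI hc) hab hbc hac with h1 | h1 | h1
  · obtain ⟨h2, e, he⟩ := h1
    exact hind a ha b hb h2 ⟨e, mem_univ _, he⟩
  · obtain ⟨h2, e, he⟩ := h1
    exact hind b hb c hc h2 ⟨e, mem_univ _, he⟩
  · obtain ⟨h2, e, he⟩ := h1
    exact hind a ha c hc h2 ⟨e, mem_univ _, he⟩

theorem clq_of {V E : Type} [Fintype V] [DecidableEq V] [Fintype E] [DecidableEq E]
    {src dst : E → V} {K : Finset V} (h : Clique src dst K) : Q163.FL.Clq src dst K := by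
  intro x hx y hy hxy
  obtain ⟨_, e, he⟩ := h x hx y hy hxy
  exact ⟨e, mem_univ _, he⟩

theorem flow {V E : Type} [Fintype V] [DecidableEq V] [Fintype E] [DecidableEq E]
    {src dst : E → V} (h : TreeClass src dst ∨ PathClass src dst) (hPM : ¬ TH499.TF.PM src dst)
    (hb : ∀ Y, (TH499.TF.dlt src dst Y).card ≠ 1) : TH499.TF.NZ src dst := by
  classical
  rcases h with ⟨ι, _, T, bag, ⟨t1, _, t2, t3⟩, t4⟩ | ⟨X, ⟨h1, h2⟩, h3⟩
  · refine Q163.FL.flow_tree src dst (fun X => IndependenceTwo src dst X ∨ CliqueCover src dst 5 X)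
      ?_ (Q165.TI.TDP.of_tree t1 t3 t2 t4) hPM hb
    rintro f hf Y (hY | hY)
    · exact Q163.FL.ind_image hf (ind_of hY)
    · exact Q163.FL.cov_image hf (cov_of hY)
  · refine Q163.FL.flow_path src dst (fun Y => CliqueCover src dst 6 Y ∨
      ∃ K : Finset V, Clique src dst K ∧ K.card ≠ 2 ∧ IndependenceTwo src dst (Y \ K))
      ?_ ⟨X, h1, h2, h3⟩ hPM hb
    rintro f hf Y (hY | ⟨K, hK, hK2, hY⟩)
    · exact Q163.FL.cov_image hf (cov_of hY)
    · exact Q163.FL.ind_clq_image hf (clq_of hK) hK2 (ind_of hY)

/-- Let `S` be a set of vectors over GF(2) which represents the cographic matroid of a graph in one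
of the two classes (parallel elements are represented by the same vector).  If `S` is a 2-block
then the minor of `S` for some `C ⊆ S` and 15 elements of `S` is the cographic matroid of the
Petersen graph; if `S` is a tangential 2-block then `S` is the cographic matroid of the Petersen
graph, in the form of the frozen statement S10691. -/
theorem result :
    ∀ (n : ℕ) (S : Set (Fin n → ZMod 2)) (V E : Type) [Fintype V] [DecidableEq V] [Fintype E]
      [DecidableEq E] (src dst : E → V) (vec : E → Fin n → ZMod 2),
      RepresentsCographic src dst vec → Set.range vec = S →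
      (TreeClass src dst ∨ PathClass src dst) →
      (IsTwoBlock S → ∃ (C : Set (Fin n → ZMod 2)) (t : Fin 15 → Fin n → ZMod 2),
        C ⊆ S ∧ Set.range t ⊆ S ∧ Function.Injective t ∧
        ∀ x : Fin 15 → ZMod 2, ∑ k, x k • t k ∈ Submodule.span (ZMod 2) C ↔ x ∈ petersenCuts) ∧
      (IsTangential S → ∃ ψ : (Fin 15 → ZMod 2) →ₗ[ZMod 2] (Fin n → ZMod 2),
        LinearMap.ker ψ = petersenCuts ∧
        ⇑ψ '' Set.range (fun k : Fin 15 => (Pi.single k (1 : ZMod 2) : Fin 15 → ZMod 2)) = S) := by
  classical
  intro n S V E _ _ _ _ src dst vec hv hr hT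
  have hv' : TH676.Blk.RepCo src dst vec := hv
  have hPC : TH676.Blk.PC = petersenCuts := rfl
  have main : IsTwoBlock S → ∃ (C : Set (Fin n → ZMod 2)) (t : Fin 15 → Fin n → ZMod 2),
        C ⊆ S ∧ Set.range t ⊆ S ∧ Function.Injective t ∧
        ∀ x : Fin 15 → ZMod 2, ∑ k, x k • t k ∈ Submodule.span (ZMod 2) C ↔
          x ∈ TH676.Blk.PC := by
    rintro ⟨hz, hL⟩
    have h0 : ∀ e, vec e ≠ 0 := by
      intro e he
      apply hz
      rw [← hr, ← he]
      exact ⟨e, rfl⟩
    have hnz : ¬ TH499.TF.NZ src dst := by
      intro h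
      obtain ⟨L, hL'⟩ := hv'.map h
      apply hL
      refine ⟨L, fun s hs => ?_⟩
      rw [← hr] at hs
      obtain ⟨e, rfl⟩ := hs
      exact hL' e
    have hPM : TH499.TF.PM src dst := by
      by_contra hPM
      exact hnz (flow hT hPM (hv'.br h0))
    obtain ⟨D, ed, hx⟩ := hv'.minor hPM
    refine ⟨vec '' (D : Set E), fun k => vec (ed k), ?_, ?_, ?_, hx⟩
    · rintro _ ⟨e, _, rfl⟩
      rw [← hr]
      exact ⟨e, rfl⟩
    · rintro _ ⟨k, rfl⟩
      rw [← hr]
      exact ⟨ed k, rfl⟩
    · intro k l hkl
      by_contra hne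
      apply TH676.Blk.pair_not_mem k l hne
      rw [← hx]
      have : ∑ m, (Pi.single k 1 + Pi.single l 1 : Fin 15 → ZMod 2) m • vec (ed m) = 0 := by
        simp only [Pi.add_apply, add_smul]
        rw [Finset.sum_add_distrib]
        simp only [Pi.single_apply, ite_smul, one_smul, zero_smul, Finset.sum_ite_eq',
          Finset.mem_univ, if_true]
        have h3 : vec (ed k) = vec (ed l) := hkl
        rw [h3]
        funext i
        exact CharTwo.add_self_eq_zero _
      rw [this]
      exact Submodule.zero_mem _
  refine ⟨main, ?_⟩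
  rintro ⟨h2, htan⟩
  obtain ⟨C, t, hC, ht, hinj, hx⟩ := main h2
  -- a single element is not in the span of `C`
  have hsum1 : ∀ k, ∑ m, (Pi.single k 1 : Fin 15 → ZMod 2) m • t m = t k := by
    intro k
    simp only [Pi.single_apply, ite_smul, one_smul, zero_smul, Finset.sum_ite_eq',
      Finset.mem_univ, if_true]
  have hsp : ∀ k, t k ∉ Submodule.span (ZMod 2) C := by
    intro k hk
    apply TH676.Blk.single_not_mem k
    rw [← hx, hsum1]
    exact hk
  have hTS : Set.range t = S := by
    by_contra hne
    obtain ⟨L, hL1, hL2⟩ := htan C (Set.range t) hC ht hne (by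
      rintro _ ⟨k, rfl⟩
      exact hsp k)
    obtain ⟨k, hk⟩ := TH676.Blk.pet_flow (fun k => ((L (t k)) 0, (L (t k)) 1)) (by
      intro x hxP
      have h3 := (hx x).mpr hxP
      have h4 : L (∑ k, x k • t k) = 0 := by
        have hle : Submodule.span (ZMod 2) C ≤ LinearMap.ker L :=
          Submodule.span_le.mpr (fun c hc => hL1 c hc)
        exact hle h3
      rw [map_sum] at h4
      simp only [map_smul] at h4
      have h5 := congrFun h4 0
      have h6 := congrFun h4 1
      rw [Finset.sum_apply] at h5 h6
      refine Prod.ext ?_ ?_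
      · rw [Prod.fst_sum]
        exact h5
      · rw [Prod.snd_sum]
        exact h6)
    apply hL2 (t k) ⟨k, rfl⟩
    funext i
    fin_cases i
    · exact congrArg Prod.fst hk
    · exact congrArg Prod.snd hk
  have hC0 : C = ∅ := by
    rw [Set.eq_empty_iff_forall_notMem]
    intro c hc
    have h3 := hC hc
    rw [← hTS] at h3
    obtain ⟨k, rfl⟩ := h3
    exact hsp k (Submodule.subset_span hc)
  refine ⟨Fintype.linearCombination (ZMod 2) t, ?_, ?_⟩
  · ext x
    rw [LinearMap.mem_ker, Fintype.linearCombination_apply, ← hPC, ← hx, hC0,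
      Submodule.span_empty, Submodule.mem_bot]
  · ext s
    rw [← hTS]
    constructor
    · rintro ⟨_, ⟨k, rfl⟩, rfl⟩
      refine ⟨k, ?_⟩
      rw [Fintype.linearCombination_apply]
      exact (hsum1 k).symm
    · rintro ⟨k, rfl⟩
      refine ⟨_, ⟨k, rfl⟩, ?_⟩
      rw [Fintype.linearCombination_apply]
      exact hsum1 k

end Pool.Agent.Results.MP_aa6b05_co.TreeIndependenceTwo
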